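import Pool.Agent.Helper91.QR.PermLib

/-!
# Row A10: splitting at a boundary vertex which is visited twice
-/

namespace QR

open Equiv Relation

namespace H91

variable {D : Type}

/-- one step -/
abbrev Stp (m : RMap D) (a b : D) : Prop := b = m.rot a ∨ b = m.opp a

lemma face_apply (m : RMap D) (d : D) : m.face d = m.rot (m.opp d) := rfl

lemma rtg_pow (m : RMap D) (n : ℕ) (a : D) : ReflTransGen (Stp m) a ((m.rot ^ n) a) := by
  induction n with
  | zero => exact ReflTransGen.refl
  | succ n ih =>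
    refine ih.tail (Or.inl ?_)
    rw [pow_succ', Perm.mul_apply]

lemma rtg_symm [Finite D] (m : RMap D) {a b : D} (h : ReflTransGen (Stp m) a b) :
    ReflTransGen (Stp m) b a := by
  induction h with
  | refl => exact ReflTransGen.refl
  | @tail b c _ hbc ih =>
    refine ReflTransGen.trans ?_ ih
    rcases hbc with rfl | rfl
    · have h1 : (m.rot ^ (Function.minimalPeriod m.rot b - 1)) (m.rot b) = b := by
        have h2 := mp_pos m.rot b
        rw [← Perm.mul_apply, ← pow_succ, Nat.sub_add_cancel h2]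
        exact pow_mp m.rot b
      have h3 := rtg_pow m (Function.minimalPeriod m.rot b - 1) (m.rot b)
      rwa [h1] at h3
    · exact ReflTransGen.single (Or.inr (m.opp_opp b).symm)

/-- the map on an invariant set of darts -/
def sub (m : RMap D) (K : Set D) (h1 : ∀ d, m.rot d ∈ K ↔ d ∈ K) (h2 : ∀ d, m.opp d ∈ K ↔ d ∈ K) :
    RMap K where
  rot := m.rot.subtypePerm h1
  opp := m.opp.subtypePerm h2
  opp_opp := fun d => Subtype.ext (m.opp_opp d)
  opp_ne := fun d h => m.opp_ne d (Subtype.ext_iff.1 h)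

/-- paths lift to copies -/
lemma rtg_lift {T : Type} {m' : RMap T} {m : RMap D} {j : T → D}
    (h1 : ∀ d, j (m'.rot d) = m.rot (j d)) (h2 : ∀ d, j (m'.opp d) = m.opp (j d)) (d : T) {y : D}
    (h : ReflTransGen (Stp m) (j d) y) : ∃ e, j e = y ∧ ReflTransGen (Stp m') d e := by
  induction h with
  | refl => exact ⟨d, rfl, ReflTransGen.refl⟩
  | @tail b c _ hbc ih =>
    obtain ⟨e, he, h⟩ := ih
    rcases hbc with rfl | rfl
    · exact ⟨m'.rot e, by rw [h1, he], h.tail (Or.inl rfl)⟩
    · exact ⟨m'.opp e, by rw [h2, he], h.tail (Or.inr rfl)⟩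

lemma copy_face {T : Type} {m' : RMap T} {m : RMap D} {j : T → D}
    (h1 : ∀ d, j (m'.rot d) = m.rot (j d)) (h2 : ∀ d, j (m'.opp d) = m.opp (j d)) (d : T) :
    j (m'.face d) = m.face (j d) := by
  rw [face_apply, face_apply, h1, h2]

/-- number of vertices in `K` -/
noncomputable def VK (m : RMap D) (K : Set D) : ℕ :=
  Nat.card {q : Cyc m.rot // ∃ x ∈ K, Quotient.mk _ x = q}

/-- number of faces in `K` -/
noncomputable def FK (m : RMap D) (K : Set D) : ℕ :=
  Nat.card {q : Cyc m.face // ∃ x ∈ K, Quotient.mk _ x = q}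

lemma fdeg_eq [Finite D] (m : RMap D) (d : D) : m.fdeg d = Function.minimalPeriod m.face d :=
  card_sc m.face d

/-- Euler inequality for an invariant connected set -/
lemma euler_K [Finite D] (hA : ST_A01) (m : RMap D) (K : Set D) (h1 : ∀ d, m.rot d ∈ K ↔ d ∈ K)
    (h2 : ∀ d, m.opp d ∈ K ↔ d ∈ K) (x0 : D) (hx0 : x0 ∈ K)
    (hc : ∀ x ∈ K, ∀ y ∈ K, ReflTransGen (Stp m) x y) :
    2 * (VK m K + FK m K) ≤ Nat.card K + 4 := by
  have hc' : (sub m K h1 h2).Conn := by
    intro d d'
    obtain ⟨e, he, h⟩ := rtg_lift (m' := sub m K h1 h2) (m := m) (j := Subtype.val)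
      (fun _ => rfl) (fun _ => rfl) d (hc d d.2 d' d'.2)
    rw [← Subtype.ext he]
    exact h
  have h3 := hA K (sub m K h1 h2) ⟨⟨x0, hx0⟩⟩ hc'
  have h4 : Nat.card (sub m K h1 h2).Vert = VK m K := by
    have := copy_card (σ' := (sub m K h1 h2).rot) (σ := m.rot) (j := Subtype.val)
      Subtype.val_injective (fun _ => rfl)
    rw [Subtype.range_val] at this
    exact this
  have h5 : Nat.card (sub m K h1 h2).Face = FK m K := by
    have := copy_card (σ' := (sub m K h1 h2).face) (σ := m.face) (j := Subtype.val)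
      Subtype.val_injective (fun _ => rfl)
    rw [Subtype.range_val] at this
    exact this
  rw [h4, h5] at h3
  exact h3

/-- degree sum for an invariant set -/
lemma deg_K [Finite D] (m : RMap D) (K : Set D) (h1 : ∀ d, m.rot d ∈ K ↔ d ∈ K)
    (h2 : ∀ d, m.opp d ∈ K ↔ d ∈ K) (x0 : D) (hx0 : x0 ∈ K) (a : ℕ)
    (ha : Function.minimalPeriod m.face x0 = a)
    (h4 : ∀ d ∈ K, ¬ m.face.SameCycle x0 d → Function.minimalPeriod m.face d = 4) :
    Nat.card K + 4 = a + 4 * FK m K := by
  have h5 : Nat.card (sub m K h1 h2).Face = FK m K := by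
    have := copy_card (σ' := (sub m K h1 h2).face) (σ := m.face) (j := Subtype.val)
      Subtype.val_injective (fun _ => rfl)
    rw [Subtype.range_val] at this
    exact this
  rw [← h5]
  have hm : ∀ d : K, Function.minimalPeriod (sub m K h1 h2).face d =
      Function.minimalPeriod m.face d :=
    fun d => copy_mp Subtype.val_injective (fun _ => rfl) d
  refine card_four (sub m K h1 h2).face ⟨x0, hx0⟩ a (by rw [hm]; exact ha) fun d hd => ?_
  rw [hm]
  refine h4 d d.2 fun hs => hd ?_
  exact (copy_sc (σ := m.face) (j := Subtype.val) Subtype.val_injective (fun _ => rfl)).2 hs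

/-- a copy of an invariant connected planar set is a quadrangulation -/
lemma copy_quad [Finite D] (m : RMap D) (K : Set D) (x0 : D) (n p : ℕ)
    (hc : ∀ x ∈ K, ∀ y ∈ K, ReflTransGen (Stp m) x y)
    (he : 2 * (VK m K + FK m K) = Nat.card K + 4)
    (ha : Function.minimalPeriod m.face x0 = 2 * p)
    (h4 : ∀ d ∈ K, ¬ m.face.SameCycle x0 d → Function.minimalPeriod m.face d = 4)
    (hn : Nat.card K = 4 * n + 2 * p) (T : Type) [Finite T] (m' : RMap T) (j : T → D) (o' : T)
    (hj : Function.Injective j) (h1 : ∀ d, j (m'.rot d) = m.rot (j d))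
    (h2 : ∀ d, j (m'.opp d) = m.opp (j d)) (hr : Set.range j = K) (ho : j o' = x0) :
    m'.IsQuad o' n p := by
  have hmem : ∀ d, j d ∈ K := fun d => by rw [← hr]; exact ⟨d, rfl⟩
  have hf := copy_face h1 h2
  have hcard : Nat.card T = Nat.card K := by
    rw [← hr]
    exact Nat.card_congr (Equiv.ofInjective j hj)
  refine ⟨⟨⟨o'⟩, ?_, ?_⟩, ?_, ?_, ?_⟩
  · intro d d'
    obtain ⟨e, he, h⟩ := rtg_lift h1 h2 d (hc _ (hmem d) _ (hmem d'))
    rw [← hj he]
    exact h
  · have e1 : Nat.card m'.Vert = VK m K := by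
      have := copy_card (σ' := m'.rot) (σ := m.rot) hj h1
      rw [hr] at this
      exact this
    have e2 : Nat.card m'.Face = FK m K := by
      have := copy_card (σ' := m'.face) (σ := m.face) hj hf
      rw [hr] at this
      exact this
    rw [e1, e2, hcard, he]
  · rw [fdeg_eq, copy_mp hj hf, ho, ha]
  · intro d hd
    rw [fdeg_eq, copy_mp hj hf]
    refine h4 _ (hmem d) fun hs => hd ?_
    rw [← ho] at hs
    exact (copy_sc hj hf).2 hs
  · rw [hcard, hn]


/-- the darts reached from `x` -/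
def comp (m : RMap D) (x : D) : Set D := {d | ReflTransGen (Stp m) x d}

lemma comp_rot [Finite D] (m : RMap D) (x d : D) : m.rot d ∈ comp m x ↔ d ∈ comp m x := by
  constructor
  · intro h
    exact ReflTransGen.trans h (rtg_symm m (ReflTransGen.single (Or.inl rfl)))
  · intro h
    exact ReflTransGen.tail h (Or.inl rfl)

lemma comp_opp [Finite D] (m : RMap D) (x d : D) : m.opp d ∈ comp m x ↔ d ∈ comp m x := by
  constructor
  · intro h
    exact ReflTransGen.trans h (rtg_symm m (ReflTransGen.single (Or.inr rfl)))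
  · intro h
    exact ReflTransGen.tail h (Or.inr rfl)

open Classical in
lemma cut_rot (m : RMap D) (x y d : D) : (cut m (swap x y)).rot d = swap x y (m.rot d) := by
  show ((swap x y)⁻¹ * m.rot) d = _
  rw [swap_inv, Perm.mul_apply]

open Classical in
lemma cut_face (m : RMap D) (x y : D) : (cut m (swap x y)).face = swap x y * m.face := by
  ext d
  rw [face_apply, cut_rot, Perm.mul_apply, face_apply]
  rfl

open Classical in
lemma cut_rot' (m : RMap D) (x y : D) : (cut m (swap x y)).rot = swap x y * m.rot := by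
  ext d
  rw [cut_rot, Perm.mul_apply]

open Classical in
/-- every component of the cut map contains `x` or `y` -/
lemma cut_comp (m : RMap D) (hm : m.Conn) (x y d : D) :
    ReflTransGen (Stp (cut m (swap x y))) d x ∨ ReflTransGen (Stp (cut m (swap x y))) d y := by
  by_contra hcon
  push Not at hcon
  obtain ⟨hx, hy⟩ := hcon
  have key : ∀ e, ReflTransGen (Stp m) d e → ReflTransGen (Stp (cut m (swap x y))) d e := by
    intro e he
    induction he with
    | refl => exact ReflTransGen.refl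
    | @tail b c _ hbc ih =>
      rcases hbc with rfl | rfl
      · have h1 : ReflTransGen (Stp (cut m (swap x y))) d ((cut m (swap x y)).rot b) :=
          ih.tail (Or.inl rfl)
        rw [cut_rot] at h1
        by_cases e1 : m.rot b = x
        · rw [e1, swap_apply_left] at h1; exact absurd h1 hy
        · by_cases e2 : m.rot b = y
          · rw [e2, swap_apply_right] at h1; exact absurd h1 hx
          · rwa [swap_apply_of_ne_of_ne e1 e2] at h1
      · exact ih.tail (Or.inr rfl)
  exact hx (key x (hm d x))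

open Classical in
/-- the map cut at `o` and `face ^ l o` -/
noncomputable abbrev ctm (m : RMap D) (o : D) (l : ℕ) : RMap D := cut m (swap o ((m.face ^ l) o))

/-- all the properties of the splitting -/
theorem split_main (hA : ST_A01) [Finite D] (m : RMap D) (o : D) (N P l : ℕ)
    (hq : m.IsQuad o N P) (hl1 : 1 ≤ l) (hl2 : l < 2 * P)
    (ht : m.tail o = m.tail ((m.face ^ l) o)) :
    (m.face ^ l) o ∉ comp (ctm m o l) o ∧
    (∀ d ∉ comp (ctm m o l) o, ReflTransGen (Stp (ctm m o l)) ((m.face ^ l) o) d) ∧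
    ∃ κ N1 N2 : ℕ, l = 2 * κ ∧ N1 + N2 = N ∧
      Nat.card (comp (ctm m o l) o) = 4 * N1 + 2 * κ ∧
      Nat.card ((comp (ctm m o l) o)ᶜ : Set D) = 4 * N2 + 2 * (P - κ) ∧
      (∀ (D' : Type) [Finite D'] (m' : RMap D') (j : D' → D) (o' : D'), Function.Injective j →
        (∀ d, j (m'.rot d) = (ctm m o l).rot (j d)) →
        (∀ d, j (m'.opp d) = m.opp (j d)) →
        (Set.range j = comp (ctm m o l) o → j o' = o → m'.IsQuad o' N1 κ) ∧
        (Set.range j = (comp (ctm m o l) o)ᶜ → j o' = (m.face ^ l) o → m'.IsQuad o' N2 (P - κ))) := by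
  classical
  obtain ⟨⟨hne, hconn, heul⟩, hout, hinn, hcard⟩ := hq
  -- the face of `o`
  have hmpo : Function.minimalPeriod m.face o = 2 * P := by rw [← fdeg_eq]; exact hout
  have hfinj : ∀ i j : ℕ, i < 2 * P → j < 2 * P → (m.face ^ i) o = (m.face ^ j) o → i = j := by
    intro i j hi hj h
    rw [← hmpo] at hi hj
    exact pow_inj _ _ hi hj h
  have hf2P : (m.face ^ (2 * P)) o = o := by rw [← hmpo]; exact pow_mp _ _
  have ho2 : (m.face ^ l) o ≠ o := by
    intro h
    have := hfinj l 0 hl2 (by omega) (by rw [h]; simp)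
    omega
  have hadd : ∀ i : ℕ, (m.face ^ i) ((m.face ^ l) o) = (m.face ^ (i + l)) o := by
    intro i
    rw [pow_add, Perm.mul_apply]
  set o2 := (m.face ^ l) o with ho2def
  set mh := ctm m o l with hmh
  have hmf : mh.face = swap o o2 * m.face := cut_face m o o2
  have hmr : mh.rot = swap o o2 * m.rot := cut_rot' m o o2
  have hopp : ∀ d, mh.opp d = m.opp d := fun _ => rfl
  -- periods
  have c1 : ∀ i, 1 ≤ i → i < l → (m.face ^ i) o ≠ o := by
    intro i h1 h2 h
    have := hfinj i 0 (by omega) (by omega) (by rw [h]; simp)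
    omega
  have c2 : ∀ i, i < l → (m.face ^ i) o ≠ o2 := by
    intro i h2 h
    have := hfinj i l (by omega) hl2 h
    omega
  have per1 : Function.minimalPeriod mh.face o = l := by
    rw [hmf]; exact swap_mp m.face hl1 c1 c2 rfl
  have d1 : ∀ i, 1 ≤ i → i < 2 * P - l → (m.face ^ i) o2 ≠ o2 := by
    intro i h1 h2 h
    rw [ho2def, hadd] at h
    have := hfinj (i + l) l (by omega) hl2 h
    omega
  have d2 : ∀ i, i < 2 * P - l → (m.face ^ i) o2 ≠ o := by
    intro i h2 h
    rw [ho2def, hadd] at h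
    have := hfinj (i + l) 0 (by omega) (by omega) (by rw [h]; simp)
    omega
  have d3 : (m.face ^ (2 * P - l)) o2 = o := by
    rw [ho2def, hadd, Nat.sub_add_cancel hl2.le, hf2P]
  have per2 : Function.minimalPeriod mh.face o2 = 2 * P - l := by
    rw [hmf, swap_comm]; exact swap_mp m.face (by omega) d1 d2 d3
  have hsc : m.face.SameCycle o o2 := sc_pow _ _ _
  -- orbits of `mh.face`
  have orb1 := (swap_pow m.face hl1 c1 c2 rfl).1
  have orb2 := (swap_pow m.face (show 1 ≤ 2 * P - l by omega) d1 d2 d3).1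
  have hother : ∀ d, ¬ mh.face.SameCycle o d → ¬ mh.face.SameCycle o2 d →
      Function.minimalPeriod mh.face d = 4 := by
    intro d hd1 hd2
    have hd : ¬ m.face.SameCycle o d := by
      intro h
      obtain ⟨n, hn⟩ := (sc_nat _).1 h
      have hlt : n % (2 * P) < 2 * P := Nat.mod_lt _ (by omega)
      have hn' : (m.face ^ (n % (2 * P))) o = d := by
        rw [← hmpo, pow_mod_mp, hn]
      rcases Nat.lt_or_ge (n % (2 * P)) l with h1 | h1
      · apply hd1
        rw [← hn', ← orb1 _ h1, ← hmf]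
        exact sc_pow _ _ _
      · apply hd2
        have h2 := orb2 (n % (2 * P) - l) (by omega)
        rw [ho2def, hadd, Nat.sub_add_cancel h1, hn'] at h2
        rw [← h2, ← ho2def, swap_comm, ← hmf]
        exact sc_pow _ _ _
    rw [hmf, swap_other_mp m.face (fun h => hd h.symm) (fun h => hd (hsc.trans h.symm)), ← fdeg_eq]
    exact hinn d hd
  -- number of vertices and faces
  have hF : Nat.card (Cyc m.face) + 1 ≤ Nat.card (Cyc mh.face) := by
    rw [hmf]; exact swap_card m.face hl1 c1 c2 rfl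
  have hV : Nat.card (Cyc m.rot) + 1 ≤ Nat.card (Cyc mh.rot) := by
    have hs : m.rot.SameCycle o o2 := Quotient.exact ht
    obtain ⟨n, hn⟩ := (sc_nat _).1 hs
    have hn' : (m.rot ^ (n % Function.minimalPeriod m.rot o)) o = o2 := by rw [pow_mod_mp, hn]
    have hk1 : 1 ≤ n % Function.minimalPeriod m.rot o := by
      rcases Nat.eq_zero_or_pos (n % Function.minimalPeriod m.rot o) with h0 | h0
      · rw [h0] at hn'
        exact absurd hn'.symm ho2
      · exact h0
    have hk2 : n % Function.minimalPeriod m.rot o < Function.minimalPeriod m.rot o :=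
      Nat.mod_lt _ (mp_pos _ _)
    rw [hmr]
    refine swap_card m.rot hk1 (fun i h1 h2 h => ?_) (fun i h1 h => ?_) hn'
    · have := pow_inj m.rot o (show i < _ by omega) (mp_pos _ _) (by rw [h]; simp)
      omega
    · have := pow_inj m.rot o (show i < _ by omega) hk2 (by rw [h, hn'])
      omega
  have hVe : Nat.card m.Vert = Nat.card (Cyc m.rot) := rfl
  have hFe : Nat.card m.Face = Nat.card (Cyc m.face) := rfl
  rw [hVe, hFe] at heul
  -- components
  set K := comp mh o with hK
  have hKr := comp_rot mh o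
  have hKo := comp_opp mh o
  have hoK : o ∈ K := ReflTransGen.refl
  have hcc := cut_comp m hconn o o2
  have hno : o2 ∉ K := by
    intro h
    have hall : ∀ d, d ∈ K := by
      intro d
      rcases hcc d with h1 | h1
      · exact rtg_symm mh h1
      · exact ReflTransGen.trans h (rtg_symm mh h1)
    have hc : mh.Conn := fun d d' => ReflTransGen.trans (rtg_symm mh (hall d)) (hall d')
    have h3 := hA D mh ⟨o⟩ hc
    have hVe' : Nat.card mh.Vert = Nat.card (Cyc mh.rot) := rfl
    have hFe' : Nat.card mh.Face = Nat.card (Cyc mh.face) := rfl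
    rw [hVe', hFe'] at h3
    omega
  have hno' : o2 ∈ Kᶜ := hno
  have hc2 : ∀ d ∉ K, ReflTransGen (Stp mh) o2 d := by
    intro d hd
    rcases hcc d with h1 | h1
    · exact absurd (rtg_symm mh h1) hd
    · exact rtg_symm mh h1
  have hconK : ∀ x ∈ K, ∀ y ∈ K, ReflTransGen (Stp mh) x y :=
    fun x hx y hy => ReflTransGen.trans (rtg_symm mh hx) hy
  have hconKc : ∀ x ∈ Kᶜ, ∀ y ∈ Kᶜ, ReflTransGen (Stp mh) x y :=
    fun x hx y hy => ReflTransGen.trans (rtg_symm mh (hc2 x hx)) (hc2 y hy)
  have hKr' : ∀ d, mh.rot d ∈ Kᶜ ↔ d ∈ Kᶜ := fun d => not_congr (hKr d)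
  have hKo' : ∀ d, mh.opp d ∈ Kᶜ ↔ d ∈ Kᶜ := fun d => not_congr (hKo d)
  have hKf : ∀ d, mh.face d ∈ K ↔ d ∈ K := by
    intro d
    rw [face_apply]
    exact (hKr _).trans (hKo d)
  have hKfn : ∀ (n : ℕ) d, (mh.face ^ n) d ∈ K ↔ d ∈ K := by
    intro n
    induction n with
    | zero => intro d; simp
    | succ n ih => intro d; rw [pow_succ, Perm.mul_apply, ih, hKf]
  have hKs : ∀ x y, mh.face.SameCycle x y → (x ∈ K ↔ y ∈ K) := by
    intro x y h
    obtain ⟨n, hn⟩ := (sc_nat _).1 h
    rw [← hn, hKfn]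
  -- counts
  have E1 := euler_K hA mh K hKr hKo o hoK hconK
  have E2 := euler_K hA mh Kᶜ hKr' hKo' o2 hno' hconKc
  have S1 : Nat.card (Cyc mh.rot) = VK mh K + VK mh Kᶜ := card_split mh.rot K hKr
  have S2 : Nat.card (Cyc mh.face) = FK mh K + FK mh Kᶜ := card_split mh.face K hKf
  have S3 : Nat.card D = Nat.card K + Nat.card (Kᶜ : Set D) := by
    have := Fintype.ofFinite D
    rw [Nat.card_eq_fintype_card, Nat.card_eq_fintype_card, Nat.card_eq_fintype_card]
    have h1 := Fintype.card_subtype_compl (fun q : D => q ∈ K)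
    have h2 := Fintype.card_subtype_le (fun q : D => q ∈ K)
    have h3 : Fintype.card (Kᶜ : Set D) = Fintype.card {x // ¬ x ∈ K} := Fintype.card_congr
      (Equiv.refl _)
    have h4 : Fintype.card K = Fintype.card {x // x ∈ K} := rfl
    omega
  have F1 : ∀ d ∈ K, ¬ mh.face.SameCycle o d → Function.minimalPeriod mh.face d = 4 :=
    fun d hd hs => hother d hs fun h => hno ((hKs _ _ h).2 hd)
  have F2 : ∀ d ∈ Kᶜ, ¬ mh.face.SameCycle o2 d → Function.minimalPeriod mh.face d = 4 :=
    fun d hd hs => hother d (fun h => hd ((hKs _ _ h).1 hoK)) hs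
  have G1 := deg_K mh K hKr hKo o hoK l per1 F1
  have G2 := deg_K mh Kᶜ hKr' hKo' o2 hno' (2 * P - l) per2 F2
  have hFK1 : 1 ≤ FK mh K := by
    have : Nonempty {q : Cyc mh.face // ∃ x ∈ K, Quotient.mk _ x = q} := ⟨⟨_, o, hoK, rfl⟩⟩
    exact Nat.card_pos
  have hFK2 : 1 ≤ FK mh Kᶜ := by
    have : Nonempty {q : Cyc mh.face // ∃ x ∈ Kᶜ, Quotient.mk _ x = q} := ⟨⟨_, o2, hno', rfl⟩⟩
    exact Nat.card_pos
  have Q1 : 2 * (VK mh K + FK mh K) = Nat.card K + 4 := by omega
  have Q2 : 2 * (VK mh Kᶜ + FK mh Kᶜ) = Nat.card (Kᶜ : Set D) + 4 := by omega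
  refine ⟨hno, hc2, l / 2, FK mh K - 1, FK mh Kᶜ - 1, by omega, by omega, by omega, by omega, ?_⟩
  intro D' _ m' j o' hj hjr hjo
  constructor
  · intro hr ho
    exact copy_quad mh K o _ _ hconK Q1 (by omega) F1 (by omega) D' m' j o' hj hjr hjo hr ho
  · intro hr ho
    exact copy_quad mh Kᶜ o2 _ _ hconKc Q2 (by omega) F2 (by omega) D' m' j o' hj hjr hjo hr ho

end H91

open Classical in
theorem st_A10 (h1 : ST_A01) : ST_A10 := by
  intro D _ m o N P l hP hq hl1 hl2 ht
  obtain ⟨hno, -, κ, N1, N2, e1, e2, e3, -, e5⟩ := H91.split_main h1 m o N P l hq hl1 hl2 ht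
  exact ⟨H91.comp (H91.ctm m o l) o, κ, N1, N2, e1, e2, ReflTransGen.refl, hno, e3,
    fun d => H91.comp_opp (H91.ctm m o l) o d, fun d => H91.comp_rot (H91.ctm m o l) o d, e5⟩

end QR
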