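import Pool.Agent.Helper91.QR.A10

/-!
# Row A11: counting the pinch points
-/

namespace QR

open Equiv Relation

namespace H91

lemma finite_rmap (D : Type) [Finite D] : Finite (RMap D) :=
  Finite.of_injective (fun m : RMap D => (m.rot, m.opp)) (fun m m' h => by
    rw [Prod.mk.injEq] at h
    exact RMap.ext h.1 h.2)

lemma exists_copy {D T : Type} (m : RMap D) (j : T → D) (hj : Function.Injective j)
    (h1 : ∀ d, m.rot d ∈ Set.range j ↔ d ∈ Set.range j)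
    (h2 : ∀ d, m.opp d ∈ Set.range j ↔ d ∈ Set.range j) :
    ∃ m' : RMap T, (∀ d, j (m'.rot d) = m.rot (j d)) ∧ (∀ d, j (m'.opp d) = m.opp (j d)) := by
  let e := Equiv.ofInjective j hj
  have he : ∀ z : Set.range j, j (e.symm z) = z := fun z =>
    (Equiv.apply_ofInjective_symm hj z)
  let r : Perm T := (e.trans (m.rot.subtypePerm h1)).trans e.symm
  let p : Perm T := (e.trans (m.opp.subtypePerm h2)).trans e.symm
  have hr : ∀ d, j (r d) = m.rot (j d) := fun d => he _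
  have hp : ∀ d, j (p d) = m.opp (j d) := fun d => he _
  exact ⟨⟨r, p, fun d => hj (by rw [hp, hp, m.opp_opp]), fun d h => m.opp_ne (j d) (by
    rw [← hp, h])⟩, hr, hp⟩

open Classical in
/-- data of a pinch point -/
lemma pinch_data (hA : ST_A01) (N P κ N1 : ℕ) (hκ : 1 ≤ κ) (hκP : κ < P) (hN : N1 ≤ N)
    {n : ℕ} (hn : n = 4 * N + 2 * P) (m : RMap (Fin n)) (o : Fin n) (hq : m.IsQuad o N P)
    (hp : Pinch m o κ N1) :
    ∃ s : {s : Finset (Fin n) // s.card = 4 * N1 + 2 * κ},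
      ∃ hs : s.1ᶜ.card = 4 * (N - N1) + 2 * (P - κ),
      ∃ y : RMap (Fin (4 * N1 + 2 * κ)) × Fin (4 * N1 + 2 * κ), y ∈ GQ N1 κ ∧
      ∃ z : RMap (Fin (4 * (N - N1) + 2 * (P - κ))) × Fin (4 * (N - N1) + 2 * (P - κ)),
        z ∈ GQ (N - N1) (P - κ) ∧
        (∀ d, s.1.orderEmbOfFin s.2 (y.1.rot d) =
          (ctm m o (2 * κ)).rot (s.1.orderEmbOfFin s.2 d)) ∧
        (∀ d, s.1.orderEmbOfFin s.2 (y.1.opp d) = m.opp (s.1.orderEmbOfFin s.2 d)) ∧
        s.1.orderEmbOfFin s.2 y.2 = o ∧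
        (∀ d, s.1ᶜ.orderEmbOfFin hs (z.1.rot d) =
          (ctm m o (2 * κ)).rot (s.1ᶜ.orderEmbOfFin hs d)) ∧
        (∀ d, s.1ᶜ.orderEmbOfFin hs (z.1.opp d) = m.opp (s.1ᶜ.orderEmbOfFin hs d)) ∧
        s.1ᶜ.orderEmbOfFin hs z.2 = (m.face ^ (2 * κ)) o := by
  obtain ⟨ht, D1, hoD, hoD2, hcD, hD1, hD2⟩ := hp
  obtain ⟨hno, hc2, κ', N1', N2', e1, e2, e3, e4, e5⟩ :=
    split_main hA m o N P (2 * κ) hq (by omega) (by omega) ht
  set K := comp (ctm m o (2 * κ)) o with hK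
  -- `D1 = K`
  have hfw : ∀ x ∈ D1, ∀ y, ReflTransGen (Stp (ctm m o (2 * κ))) x y → y ∈ D1 := by
    intro x hx y h
    induction h with
    | refl => exact hx
    | @tail b c _ hbc ih =>
      rcases hbc with rfl | rfl
      · exact (hD2 b).2 ih
      · exact (hD1 b).2 ih
  have hDK : D1 = K := by
    apply Set.Subset.antisymm
    · intro d hd
      by_contra hdK
      exact hoD2 (hfw d hd _ (rtg_symm _ (hc2 d hdK)))
    · intro d hd
      exact hfw o hoD d hd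
  rw [hDK, e3] at hcD
  have k1 : κ' = κ := by omega
  have k2 : N1' = N1 := by omega
  have k3 : N2' = N - N1 := by omega
  subst k1 k2 k3
  let s : Finset (Fin n) := Finset.univ.filter (· ∈ K)
  have hms : ∀ d, d ∈ s ↔ d ∈ K := fun d => by simp [s]
  have hs1 : s.card = 4 * N1' + 2 * κ' := by
    rw [← e3, Nat.card_eq_fintype_card, Fintype.card_subtype]
  have hs2 : sᶜ.card = 4 * (N - N1') + 2 * (P - κ') := by
    rw [Finset.card_compl, Fintype.card_fin, hs1]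
    omega
  have hr1 : Set.range (s.orderEmbOfFin hs1) = K := by
    rw [Finset.range_orderEmbOfFin]
    ext d
    rw [Finset.mem_coe, hms]
  have hr2 : Set.range (sᶜ.orderEmbOfFin hs2) = Kᶜ := by
    rw [Finset.range_orderEmbOfFin]
    ext d
    rw [Finset.mem_coe, Finset.mem_compl, hms]
    rfl
  have hKr := comp_rot (ctm m o (2 * κ')) o
  have hKo := comp_opp (ctm m o (2 * κ')) o
  obtain ⟨m1, hm1, hm1'⟩ := exists_copy (ctm m o (2 * κ')) (s.orderEmbOfFin hs1)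
    (s.orderEmbOfFin hs1).injective (by rw [hr1]; exact hKr) (by rw [hr1]; exact hKo)
  obtain ⟨m2, hm2, hm2'⟩ := exists_copy (ctm m o (2 * κ')) (sᶜ.orderEmbOfFin hs2)
    (sᶜ.orderEmbOfFin hs2).injective (by rw [hr2]; exact fun d => not_congr (hKr d))
    (by rw [hr2]; exact fun d => not_congr (hKo d))
  obtain ⟨o1, ho1⟩ : o ∈ Set.range (s.orderEmbOfFin hs1) := by
    rw [hr1]; exact ReflTransGen.refl
  obtain ⟨o2, ho2⟩ : (m.face ^ (2 * κ')) o ∈ Set.range (sᶜ.orderEmbOfFin hs2) := by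
    rw [hr2]; exact hno
  refine ⟨⟨s, hs1⟩, hs2, (m1, o1), ?_, (m2, o2), ?_, hm1, hm1', ho1, hm2, hm2', ho2⟩
  · exact (e5 _ m1 _ o1 (s.orderEmbOfFin hs1).injective hm1 hm1').1 hr1 ho1
  · exact (e5 _ m2 _ o2 (sᶜ.orderEmbOfFin hs2).injective hm2 hm2').2 hr2 ho2

end H91

open Classical H91 in
theorem st_A11 (h1 : ST_A01) : ST_A11 := by
  intro N P κ N1 hκ hκP hN
  have hn : 4 * N + 2 * P = (4 * N1 + 2 * κ) + (4 * (N - N1) + 2 * (P - κ)) := by omega
  have hex : ∀ x : {x // x ∈ GQ N P ∧ Pinch x.1 x.2 κ N1},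
      ∃ s : {s : Finset (Fin (4 * N + 2 * P)) // s.card = 4 * N1 + 2 * κ},
      ∃ hs : s.1ᶜ.card = 4 * (N - N1) + 2 * (P - κ),
      ∃ y : RMap (Fin (4 * N1 + 2 * κ)) × Fin (4 * N1 + 2 * κ), y ∈ GQ N1 κ ∧
      ∃ z : RMap (Fin (4 * (N - N1) + 2 * (P - κ))) × Fin (4 * (N - N1) + 2 * (P - κ)),
        z ∈ GQ (N - N1) (P - κ) ∧
        (∀ d, s.1.orderEmbOfFin s.2 (y.1.rot d) =
          (ctm x.1.1 x.1.2 (2 * κ)).rot (s.1.orderEmbOfFin s.2 d)) ∧
        (∀ d, s.1.orderEmbOfFin s.2 (y.1.opp d) = x.1.1.opp (s.1.orderEmbOfFin s.2 d)) ∧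
        s.1.orderEmbOfFin s.2 y.2 = x.1.2 ∧
        (∀ d, s.1ᶜ.orderEmbOfFin hs (z.1.rot d) =
          (ctm x.1.1 x.1.2 (2 * κ)).rot (s.1ᶜ.orderEmbOfFin hs d)) ∧
        (∀ d, s.1ᶜ.orderEmbOfFin hs (z.1.opp d) = x.1.1.opp (s.1ᶜ.orderEmbOfFin hs d)) ∧
        s.1ᶜ.orderEmbOfFin hs z.2 = (x.1.1.face ^ (2 * κ)) x.1.2 :=
    fun x => pinch_data h1 N P κ N1 hκ hκP hN rfl x.1.1 x.1.2 x.2.1 x.2.2
  choose s hs y hy z hz p1 p2 p3 p4 p5 p6 using hex
  have hinj : Function.Injective (fun x => ((s x, ⟨y x, hy x⟩, ⟨z x, hz x⟩) :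
      {s : Finset (Fin (4 * N + 2 * P)) // s.card = 4 * N1 + 2 * κ} × {y // y ∈ GQ N1 κ} ×
        {z // z ∈ GQ (N - N1) (P - κ)})) := by
    intro x x' h
    simp only [Prod.mk.injEq, Subtype.mk.injEq] at h
    obtain ⟨h1, h2, h3⟩ := h
    have q1 := p1 x'
    have q2 := p2 x'
    have q3 := p3 x'
    have q4 := p4 x'
    have q5 := p5 x'
    have q6 := p6 x'
    have hs' := hs x
    revert q1 q2 q3 q4 q5 q6
    generalize hs x' = hsx'
    revert hsx'
    rw [← h1, ← h2, ← h3]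
    intro hsx' q1 q2 q3 q4 q5 q6
    have hcov : ∀ d, (∃ t, (s x).1.orderEmbOfFin (s x).2 t = d) ∨
        (∃ t, (s x).1ᶜ.orderEmbOfFin hsx' t = d) := by
      intro d
      by_cases hd : d ∈ (s x).1
      · left
        have : d ∈ Set.range ((s x).1.orderEmbOfFin (s x).2) := by
          rw [Finset.range_orderEmbOfFin]; exact hd
        exact this
      · right
        have : d ∈ Set.range ((s x).1ᶜ.orderEmbOfFin hsx') := by
          rw [Finset.range_orderEmbOfFin, Finset.mem_coe, Finset.mem_compl]; exact hd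
        exact this
    have ho : x.1.2 = x'.1.2 := by rw [← p3 x, q3]
    have ho2 : (x.1.1.face ^ (2 * κ)) x.1.2 = (x'.1.1.face ^ (2 * κ)) x'.1.2 := by
      rw [← p6 x, ← q6]
    have hopp : x.1.1.opp = x'.1.1.opp := by
      ext d
      rcases hcov d with ⟨t, rfl⟩ | ⟨t, rfl⟩
      · rw [← p2 x, ← q2]
      · rw [← p5 x, ← q5]
    have hrot' : ∀ d, (ctm x.1.1 x.1.2 (2 * κ)).rot d = (ctm x'.1.1 x'.1.2 (2 * κ)).rot d := by
      intro d
      rcases hcov d with ⟨t, rfl⟩ | ⟨t, rfl⟩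
      · rw [← p1 x, ← q1]
      · rw [← p4 x, ← q4]
    have hrot : x.1.1.rot = x'.1.1.rot := by
      ext d
      have h5 := hrot' d
      rw [cut_rot, cut_rot, ho2, ho] at h5
      exact congrArg Fin.val (Equiv.injective _ h5)
    exact Subtype.ext (Prod.ext (RMap.ext hrot hopp) ho)
  have f1 : Finite (RMap (Fin (4 * N1 + 2 * κ))) := finite_rmap _
  have f2 : Finite (RMap (Fin (4 * (N - N1) + 2 * (P - κ)))) := finite_rmap _
  have hle := Nat.card_le_card_of_injective _ hinj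
  rw [Nat.card_prod, Nat.card_prod, Nat.card_eq_fintype_card (α := {s : Finset (Fin (4 * N + 2 * P)) //
    s.card = 4 * N1 + 2 * κ}), Fintype.card_finset_len, Fintype.card_fin] at hle
  have hch := Nat.choose_mul_factorial_mul_factorial (show 4 * N1 + 2 * κ ≤ 4 * N + 2 * P by omega)
  have hsub : 4 * N + 2 * P - (4 * N1 + 2 * κ) = 4 * (N - N1) + 2 * (P - κ) := by omega
  rw [hsub] at hch
  have g0 : (0 : ℝ) < (4 * N + 2 * P).factorial := by exact_mod_cast Nat.factorial_pos _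
  have g1 : (0 : ℝ) < (4 * N1 + 2 * κ).factorial := by exact_mod_cast Nat.factorial_pos _
  have g2 : (0 : ℝ) < (4 * (N - N1) + 2 * (P - κ)).factorial := by
    exact_mod_cast Nat.factorial_pos _
  have hle' : (Nat.card {x // x ∈ GQ N P ∧ Pinch x.1 x.2 κ N1} : ℝ) ≤
      ((4 * N + 2 * P).choose (4 * N1 + 2 * κ) : ℝ) * ((Nat.card {x // x ∈ GQ N1 κ} : ℝ) *
        (Nat.card {x // x ∈ GQ (N - N1) (P - κ)} : ℝ)) := by exact_mod_cast hle
  have hch' : ((4 * N + 2 * P).choose (4 * N1 + 2 * κ) : ℝ) * (4 * N1 + 2 * κ).factorial *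
      (4 * (N - N1) + 2 * (P - κ)).factorial = (4 * N + 2 * P).factorial := by exact_mod_cast hch
  rw [div_mul_div_comm, div_le_div_iff₀ g0 (mul_pos g1 g2), ← hch']
  calc _ ≤ (((4 * N + 2 * P).choose (4 * N1 + 2 * κ) : ℝ) * ((Nat.card {x // x ∈ GQ N1 κ} : ℝ) *
        (Nat.card {x // x ∈ GQ (N - N1) (P - κ)} : ℝ))) *
        (((4 * N1 + 2 * κ).factorial : ℝ) * (4 * (N - N1) + 2 * (P - κ)).factorial) :=
        mul_le_mul_of_nonneg_right hle' (mul_pos g1 g2).le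
    _ = _ := by ring

end QR
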