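import Pool.Agent.Helper98.QR.StmtsC

/-!
# Row C03: codes are products of trees
-/

namespace QR

open Filter Topology PowerSeries

namespace H91

variable {P : ℕ}

lemma per_mod {α : Type} (f : ℤ → α) (h : ∀ i, f (i + 2 * P) = f i) (i : ℤ) :
    f (i % (2 * P)) = f i := by
  have hp : Function.Periodic f (2 * (P : ℤ)) := h
  have h1 := (hp.int_mul (-(i / (2 * P)))) i
  rw [← h1]
  congr 1
  have := Int.emod_add_mul_ediv i (2 * P)
  simp only [Int.cast_id]
  linear_combination this

lemma per_mod1 {α : Type} (f : ℤ → α) (h : ∀ i, f (i + 2 * P) = f i) (i : ℤ) :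
    f (i % (2 * P) + 1) = f (i + 1) := by
  have := per_mod (P := P) (fun i => f (i + 1)) (fun i => by
    have := h (i + 1)
    change f (i + 2 * P + 1) = f (i + 1)
    rw [← this]; congr 1; ring) i
  exact this

lemma mod_mem_dn (hP : 1 ≤ P) (b : ℤ → ℤ) (h : ∀ i, b (i + 2 * P) = b i) (i : ℤ) :
    i % (2 * P) ∈ dn P b ↔ b (i + 1) = b i - 1 := by
  classical
  unfold dn
  rw [Finset.mem_filter, Finset.mem_Ico, per_mod b h, per_mod1 b h]
  have h0 : (0 : ℤ) < 2 * P := by have : (1 : ℤ) ≤ P := by exact_mod_cast hP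
                                  linarith
  exact ⟨fun h => h.2, fun h => ⟨⟨Int.emod_nonneg _ h0.ne', Int.emod_lt_of_pos _ h0⟩, h⟩⟩

lemma mod_dn {b : ℤ → ℤ} {i : ℤ} (h : i ∈ dn P b) : i % (2 * P) = i := by
  classical
  unfold dn at h
  rw [Finset.mem_filter, Finset.mem_Ico] at h
  exact Int.emod_eq_of_lt h.1.1 h.1.2

open Classical in
/-- the code with a given walk and given trees -/
noncomputable def mkc (hP : 1 ≤ P) (b : ℤ → ℤ) (hs : ∀ i, b (i + 1) = b i + 1 ∨ b (i + 1) = b i - 1)
    (hp : ∀ i, b (i + 2 * P) = b i) (p : ∀ i ∈ dn P b, LT) : Code P where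
  b := b
  t := fun i => if h : i % (2 * P) ∈ dn P b then p (i % (2 * P)) h else LT.nil
  step := hs
  up := by
    intro i hi
    rw [dif_neg]
    rw [mod_mem_dn hP b hp]
    intro h
    omega
  per_b := hp
  per_t := by
    intro i
    simp only [Int.add_emod_right]

/-- two codes with the same walk and the same trees at the down-steps of one period -/
lemma code_ext (hP : 1 ≤ P) {b : ℤ → ℤ} {c c' : Code P} (h : c.b = b) (h' : c'.b = b)
    (ht : ∀ i ∈ dn P b, c.t i = c'.t i) : c = c' := by
  have hb : ∀ i, b (i + 2 * P) = b i := by rw [← h]; exact c.per_b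
  apply Code.ext
  · rw [h, h']
  · funext i
    rcases c.step i with hu | hd
    · rw [c.up i hu]
      have : c'.b (i + 1) = c'.b i + 1 := by rw [h', ← h]; exact hu
      rw [c'.up i this]
    · have hm : i % (2 * P) ∈ dn P b := by
        rw [mod_mem_dn hP b hb, ← h]; exact hd
      have := ht _ hm
      rwa [per_mod c.t c.per_t, per_mod c'.t c'.per_t] at this

end H91

open H91 in
theorem st_C03 (h1 : ST_C01) : ST_C03 := by
  classical
  intro ω θ P k hP
  obtain ⟨hT, hB, hC⟩ := h1
  ext N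
  rw [finsum_mem_eq_finite_toFinset_sum _ (hB P k hP)]
  rw [map_sum]
  unfold CS
  rw [PowerSeries.coeff_mk]
  have e0 : (∑ᶠ (c : Code P) (_ : c.Min k ∧ c.size = N), c.W ω θ) =
      ∑ c ∈ (hC P N k hP).toFinset, c.W ω θ :=
    finsum_mem_eq_finite_toFinset_sum _ (hC P N k hP)
  rw [e0]
  have maps : ∀ c ∈ (hC P N k hP).toFinset, c.b ∈ (hB P k hP).toFinset := by
    intro c hc
    rw [Set.Finite.mem_toFinset] at hc ⊢
    exact ⟨c.step, c.per_b, hc.1.1, hc.1.2⟩
  rw [← Finset.sum_fiberwise_of_maps_to maps, Finset.mul_sum]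
  refine Finset.sum_congr rfl fun b hb => ?_
  rw [Set.Finite.mem_toFinset] at hb
  obtain ⟨bs, bp, bm, bk⟩ := hb
  rw [PowerSeries.coeff_prod]
  have e1 : ∀ l ∈ Finset.finsuppAntidiag (dn P b) N,
      ∏ i ∈ dn P b, coeff (l i) (TS ω θ (b i)) =
      (1 / 12) ^ N * ∑ p ∈ (dn P b).pi (fun i => (hT (l i)).toFinset),
        ∏ x ∈ (dn P b).attach, (p x.1 x.2).W ω θ (b x.1) := by
    intro l hl
    rw [Finset.mem_finsuppAntidiag] at hl
    have e2 : ∑ p ∈ (dn P b).pi (fun i => (hT (l i)).toFinset),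
        ∏ x ∈ (dn P b).attach, (p x.1 x.2).W ω θ (b x.1) =
        ∏ i ∈ dn P b, ∑ t ∈ (hT (l i)).toFinset, t.W ω θ (b i) :=
      (Finset.prod_sum (dn P b) (fun i => (hT (l i)).toFinset) (fun i t => t.W ω θ (b i))).symm
    rw [e2, ← hl.1, ← Finset.prod_pow_eq_pow_sum, ← Finset.prod_mul_distrib]
    refine Finset.prod_congr rfl fun i _ => ?_
    unfold TS
    rw [PowerSeries.coeff_mk]
    congr 1
    exact finsum_mem_eq_finite_toFinset_sum _ (hT (l i))
  rw [Finset.sum_congr rfl e1, ← Finset.mul_sum]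
  congr 1
  rw [Finset.sum_sigma']
  refine Finset.sum_bij (fun c _ => ⟨Finsupp.indicator (dn P b) (fun i _ => (c.t i).edges),
    fun i _ => c.t i⟩) ?_ ?_ ?_ ?_
  · intro c hc
    rw [Finset.mem_filter, Set.Finite.mem_toFinset] at hc
    obtain ⟨⟨_, hN⟩, hcb⟩ := hc
    rw [Finset.mem_sigma]
    constructor
    · rw [Finset.mem_finsuppAntidiag]
      refine ⟨?_, Finsupp.support_indicator_subset _ _⟩
      rw [← hN]
      unfold Code.size
      rw [hcb]
      refine Finset.sum_congr rfl fun i hi => ?_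
      change (Finsupp.indicator (dn P b) (fun i _ => (c.t i).edges)) i = (c.t i).edges
      rw [Finsupp.indicator_of_mem hi]
    · rw [Finset.mem_pi]
      intro i hi
      rw [Set.Finite.mem_toFinset, Finsupp.indicator_of_mem hi]
      exact rfl
  · intro c hc c' hc' h
    rw [Finset.mem_filter] at hc hc'
    refine code_ext hP hc.2 hc'.2 fun i hi => ?_
    rw [Sigma.mk.injEq] at h
    have h2 := h.2
    have h3 := congrFun (congrFun (eq_of_heq h2) i) hi
    exact h3
  · rintro ⟨l, p⟩ hlp
    rw [Finset.mem_sigma, Finset.mem_finsuppAntidiag, Finset.mem_pi] at hlp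
    obtain ⟨⟨hl1, hl2⟩, hp⟩ := hlp
    have ht : ∀ i (hi : i ∈ dn P b), (mkc hP b bs bp p).t i = p i hi := by
      intro i hi
      have hm : i % (2 * P) = i := mod_dn hi
      unfold mkc
      simp only [hm, hi, dite_true]
    refine ⟨mkc hP b bs bp p, ?_, ?_⟩
    · rw [Finset.mem_filter, Set.Finite.mem_toFinset]
      refine ⟨⟨⟨bm, bk⟩, ?_⟩, rfl⟩
      unfold Code.size
      rw [← hl1]
      refine Finset.sum_congr rfl fun i hi => ?_
      rw [ht i hi]
      have := hp i hi
      rw [Set.Finite.mem_toFinset] at this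
      exact this
    · have e : Finsupp.indicator (dn P b) (fun i _ => ((mkc hP b bs bp p).t i).edges) = l := by
        ext i
        by_cases hi : i ∈ dn P b
        · rw [Finsupp.indicator_of_mem hi, ht i hi]
          have := hp i hi
          rw [Set.Finite.mem_toFinset] at this
          exact this
        · rw [Finsupp.indicator_of_notMem hi]
          symm
          rw [← Finsupp.notMem_support_iff]
          exact fun h => hi (hl2 h)
      rw [Sigma.mk.injEq]
      refine ⟨e, heq_of_eq ?_⟩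
      funext i hi
      exact ht i hi
  · intro c hc
    rw [Finset.mem_filter] at hc
    unfold Code.W
    rw [hc.2]
    exact (Finset.prod_attach (dn P b) (fun i => (c.t i).W ω θ (b i))).symm

end QR
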