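import Pool.Agent.Helper98.QR.StmtsC

/-!
# Row C09: one-sided Tauberian bound
-/

namespace QR

open Filter Topology PowerSeries

namespace H91

lemma summ_mul (a : PowerSeries ℝ) (h : NS a) (q : ℕ → ℝ) (h0 : ∀ n, 0 ≤ q n) (h1 : ∀ n, q n ≤ 1) :
    Summable (fun n => coeff n a * q n) :=
  Summable.of_nonneg_of_le (fun n => mul_nonneg (h.1 n) (h0 n))
    (fun n => by
      have := mul_le_mul_of_nonneg_left (h1 n) (h.1 n)
      simpa using this) h.2

/-- main inequality -/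
lemma tail_le (a : PowerSeries ℝ) (h : NS a) (q : ℝ) (M : ℕ) (q0 : 0 ≤ q) (q1 : q ≤ 1)
    (hq : q ^ M ≤ 2 / 5) :
    (3 / 5) ^ 2 * tl a M ≤ (∑' n, coeff n a * (1 : ℝ) ^ n) - 2 * (∑' n, coeff n a * q ^ n) +
      ∑' n, coeff n a * (q ^ 2) ^ n := by
  have s0 : Summable (fun n => coeff n a * (1 : ℝ) ^ n) :=
    summ_mul a h _ (fun n => by simp) (fun n => by simp)
  have s1 : Summable (fun n => coeff n a * q ^ n) :=
    summ_mul a h _ (fun n => pow_nonneg q0 n) (fun n => pow_le_one₀ q0 q1)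
  have s2 : Summable (fun n => coeff n a * (q ^ 2) ^ n) :=
    summ_mul a h _ (fun n => by positivity) (fun n => pow_le_one₀ (by positivity) (pow_le_one₀ q0 q1))
  have hs : HasSum (fun n => coeff n a * (1 - q ^ n) ^ 2)
      ((∑' n, coeff n a * (1 : ℝ) ^ n) - 2 * (∑' n, coeff n a * q ^ n) +
      ∑' n, coeff n a * (q ^ 2) ^ n) := by
    have := ((s0.hasSum.sub (s1.hasSum.mul_left 2)).add s2.hasSum)
    refine this.congr_fun ?_ |> fun h => h
    intro n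
    simp only [one_pow]
    rw [← pow_mul, mul_comm 2 n, pow_mul]
    ring
  rw [← hs.tsum_eq]
  have hpos : ∀ n, 0 ≤ coeff n a * (1 - q ^ n) ^ 2 := fun n => mul_nonneg (h.1 n) (sq_nonneg _)
  rw [← hs.summable.sum_add_tsum_nat_add M]
  have h3 : (3 / 5) ^ 2 * tl a M ≤ ∑' n, coeff (n + M) a * (1 - q ^ (n + M)) ^ 2 := by
    unfold tl
    rw [← tsum_mul_left]
    refine Summable.tsum_le_tsum (fun n => ?_) ?_ ?_
    · have e1 : q ^ (n + M) ≤ 2 / 5 := by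
        rw [pow_add]
        have := pow_le_one₀ q0 q1 (n := n)
        have := pow_nonneg q0 M
        nlinarith
      have e2 : (3 / 5 : ℝ) ^ 2 ≤ (1 - q ^ (n + M)) ^ 2 := by
        apply pow_le_pow_left₀ (by norm_num)
        linarith
      have := mul_le_mul_of_nonneg_left e2 (h.1 (n + M))
      linarith
    · exact ((summable_nat_add_iff M).2 h.2).mul_left _
    · exact (summable_nat_add_iff (f := fun n => coeff n a * (1 - q ^ n) ^ 2) M).2 hs.summable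
  have h4 : 0 ≤ ∑ i ∈ Finset.range M, coeff i a * (1 - q ^ i) ^ 2 :=
    Finset.sum_nonneg fun i _ => hpos i
  linarith

end H91

open H91 in
theorem st_C09 : ST_C09 := by
  intro a A0 h2 h3 K hNS hF
  refine ⟨hNS, fun ε hε => ?_⟩
  -- inequality for every `M ≥ 8`
  have key : ∀ M : ℕ, 8 ≤ M → (9 / 25) * tl a M ≤
      (2.88 * |h3| + (|h2| + 6 * |K|) * (M : ℝ) ^ (-(1 / 2) : ℝ)) * (M : ℝ) ^ (-(3 / 2) : ℝ) := by
    intro M hM
    have hM0 : (0 : ℝ) < M := by exact_mod_cast (by omega : 0 < M)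
    have hM8 : (8 : ℝ) ≤ M := by exact_mod_cast hM
    set u : ℝ := (M : ℝ) ^ (-(1 / 2) : ℝ) with hu
    have u0 : 0 < u := Real.rpow_pos_of_pos hM0 _
    have u2 : u ^ 2 = 1 / M := by
      rw [hu, ← Real.rpow_natCast, ← Real.rpow_mul hM0.le]
      norm_num
      rw [Real.rpow_neg_one]
    have u3 : u ^ 3 = (M : ℝ) ^ (-(3 / 2) : ℝ) := by
      rw [hu, ← Real.rpow_natCast, ← Real.rpow_mul hM0.le]
      norm_num
    rw [← u3]
    set q : ℝ := Real.exp (-(1 / M)) with hq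
    have q0 : 0 < q := Real.exp_pos _
    have q1 : q ≤ 1 := by
      rw [hq]; apply Real.exp_le_one_iff.2; have : (0 : ℝ) < 1 / M := by positivity
      linarith
    have qM : q ^ M ≤ 2 / 5 := by
      rw [hq, ← Real.exp_nat_mul]
      have e1 : (M : ℝ) * (-(1 / M)) = -1 := by field_simp
      rw [e1, Real.exp_neg]
      have := Real.exp_one_gt_d9
      rw [inv_le_comm₀ (Real.exp_pos _) (by norm_num)]
      norm_num at this ⊢
      linarith
    have ql : 1 - u ^ 2 ≤ q := by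
      rw [u2, hq]
      have := Real.add_one_le_exp (-(1 / (M : ℝ)))
      linarith
    have hm := tail_le a hNS q M q0.le q1 qM
    -- the values of `y`
    set y1 : ℝ := Real.sqrt (1 - q) with hy1
    set y2 : ℝ := Real.sqrt (1 - q ^ 2) with hy2
    have y10 : 0 ≤ y1 := Real.sqrt_nonneg _
    have y20 : 0 ≤ y2 := Real.sqrt_nonneg _
    have y1s : y1 ^ 2 = 1 - q := Real.sq_sqrt (by linarith)
    have y2s : y2 ^ 2 = 1 - q ^ 2 := Real.sq_sqrt (by nlinarith)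
    have y1u : y1 ≤ u := by
      apply Real.sqrt_le_iff.2 ⟨u0.le, by linarith⟩
    have y2u : y2 ^ 2 ≤ 2 * u ^ 2 := by
      rw [y2s]; nlinarith
    have uh : u ^ 2 ≤ 1 / 8 := by
      rw [u2]
      exact one_div_le_one_div_of_le (by norm_num) hM8
    have y1h : y1 ≤ 1 / 2 := by nlinarith
    have y2h : y2 ≤ 1 / 2 := by nlinarith
    have f0 := hF 0 le_rfl (by norm_num)
    have f1 := hF y1 y10 y1h
    have f2 := hF y2 y20 y2h
    have g0 : (1 : ℝ) - 0 ^ 2 = 1 := by norm_num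
    have g1 : 1 - y1 ^ 2 = q := by rw [y1s]; ring
    have g2 : 1 - y2 ^ 2 = q ^ 2 := by rw [y2s]; ring
    rw [g0] at f0
    rw [g1] at f1
    rw [g2] at f2
    -- powers
    have p1 : y1 ^ 3 ≤ u ^ 3 := pow_le_pow_left₀ y10 y1u 3
    have p1' : 0 ≤ y1 ^ 3 := pow_nonneg y10 3
    have p2' : 0 ≤ y2 ^ 3 := pow_nonneg y20 3
    have s2 : y2 ≤ 1.42 * u := by
      have : y2 ^ 2 ≤ (1.42 * u) ^ 2 := by nlinarith
      exact (pow_le_pow_iff_left₀ y20 (by positivity) two_ne_zero).1 this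
    have p2 : y2 ^ 3 ≤ 2.88 * u ^ 3 := by
      have : y2 ^ 3 ≤ (1.42 * u) ^ 3 := pow_le_pow_left₀ y20 s2 3
      have e : (1.42 * u) ^ 3 = 2.863288 * u ^ 3 := by ring
      have : 0 < u ^ 3 := by positivity
      nlinarith
    have q1' : y1 ^ 4 ≤ u ^ 4 := pow_le_pow_left₀ y10 y1u 4
    have q2' : y2 ^ 4 ≤ 4 * u ^ 4 := by
      have : (y2 ^ 2) ^ 2 ≤ (2 * u ^ 2) ^ 2 := pow_le_pow_left₀ (by positivity) y2u 2
      nlinarith
    have r1 : (0 : ℝ) ≤ y1 ^ 4 := by positivity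
    have r2 : (0 : ℝ) ≤ y2 ^ 4 := by positivity
    have hK : K ≤ |K| := le_abs_self K
    have k1 : K * y1 ^ 4 ≤ |K| * u ^ 4 :=
      (mul_le_mul_of_nonneg_right hK r1).trans (mul_le_mul_of_nonneg_left q1' (abs_nonneg K))
    have k2 : K * y2 ^ 4 ≤ |K| * (4 * u ^ 4) :=
      (mul_le_mul_of_nonneg_right hK r2).trans (mul_le_mul_of_nonneg_left q2' (abs_nonneg K))
    rw [abs_le] at f0 f1 f2
    -- the part with `h2`
    have e2 : h2 * (y2 ^ 2 - 2 * y1 ^ 2) ≤ |h2| * u ^ 4 := by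
      have e : y2 ^ 2 - 2 * y1 ^ 2 = - y1 ^ 4 := by
        have : y1 ^ 4 = (1 - q) ^ 2 := by rw [← y1s]; ring
        rw [this, y2s, y1s]; ring
      rw [e]
      calc h2 * - y1 ^ 4 = (-h2) * y1 ^ 4 := by ring
        _ ≤ |h2| * y1 ^ 4 := mul_le_mul_of_nonneg_right (neg_le_abs h2) r1
        _ ≤ |h2| * u ^ 4 := mul_le_mul_of_nonneg_left q1' (abs_nonneg _)
    have e3 : h3 * (y2 ^ 3 - 2 * y1 ^ 3) ≤ |h3| * (2.88 * u ^ 3) := by
      have hu3 : 0 < u ^ 3 := by positivity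
      have : |y2 ^ 3 - 2 * y1 ^ 3| ≤ 2.88 * u ^ 3 := by
        rw [abs_le]; constructor <;> linarith
      calc h3 * (y2 ^ 3 - 2 * y1 ^ 3) ≤ |h3 * (y2 ^ 3 - 2 * y1 ^ 3)| := le_abs_self _
        _ = |h3| * |y2 ^ 3 - 2 * y1 ^ 3| := abs_mul _ _
        _ ≤ _ := mul_le_mul_of_nonneg_left this (abs_nonneg _)
    have z : K * (0 : ℝ) ^ 4 = 0 := by norm_num
    rw [z] at f0
    have fin : (2.88 * |h3| + (|h2| + 6 * |K|) * u) * u ^ 3 =
        |h3| * (2.88 * u ^ 3) + |h2| * u ^ 4 + 2 * (|K| * u ^ 4) + |K| * (4 * u ^ 4) := by ring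
    rw [fin]
    have t : (9 / 25 : ℝ) * tl a M = (3 / 5) ^ 2 * tl a M := by norm_num
    rw [t]
    simp only [one_pow, mul_one] at hm f0
    norm_num at f0
    linarith [f0.1, f0.2, f1.1, f1.2, f2.1, f2.2]
  -- limit
  have lim : Tendsto (fun M : ℕ => (|h2| + 6 * |K|) * (M : ℝ) ^ (-(1 / 2) : ℝ)) atTop (𝓝 0) := by
    have h1 : Tendsto (fun M : ℕ => (M : ℝ) ^ (-(1 / 2) : ℝ)) atTop (𝓝 0) :=
      (tendsto_rpow_neg_atTop (by norm_num : (0 : ℝ) < 1 / 2)).comp tendsto_natCast_atTop_atTop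
    simpa using h1.const_mul (|h2| + 6 * |K|)
  have ev := lim.eventually (gt_mem_nhds (show (0 : ℝ) < 9 / 25 * ε by positivity))
  filter_upwards [ev, eventually_ge_atTop 8] with M hM hM8
  have k := key M hM8
  have hp : 0 < (M : ℝ) ^ (-(3 / 2) : ℝ) :=
    Real.rpow_pos_of_pos (by exact_mod_cast (by omega : 0 < M)) _
  have : (2.88 * |h3| + (|h2| + 6 * |K|) * (M : ℝ) ^ (-(1 / 2) : ℝ)) * (M : ℝ) ^ (-(3 / 2) : ℝ) ≤
      (9 / 25) * ((8 * |h3| + ε) * (M : ℝ) ^ (-(3 / 2) : ℝ)) := by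
    have : 2.88 * |h3| + (|h2| + 6 * |K|) * (M : ℝ) ^ (-(1 / 2) : ℝ) ≤ (9 / 25) * (8 * |h3| + ε) := by
      nlinarith
    calc _ ≤ ((9 / 25) * (8 * |h3| + ε)) * (M : ℝ) ^ (-(3 / 2) : ℝ) :=
          mul_le_mul_of_nonneg_right this hp.le
      _ = _ := by ring
  linarith

end QR
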