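import Pool.Agent.Helper98.QR.StmtsA

/-!
# Cycles of permutations: counting lemmas for rows A10, A11
-/

namespace QR

open Equiv

namespace H91

variable {S : Type}

/-- natural powers suffice on finite types -/
lemma sc_nat [Finite S] (σ : Perm S) {x y : S} : σ.SameCycle x y ↔ ∃ n : ℕ, (σ ^ n) x = y := by
  constructor
  · intro h
    exact h.exists_nat_pow_eq
  · rintro ⟨n, hn⟩
    exact ⟨n, by simpa using hn⟩

lemma sc_pow (σ : Perm S) (x : S) (n : ℕ) : σ.SameCycle x ((σ ^ n) x) := ⟨n, by simp⟩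

lemma mp_pos [Finite S] (σ : Perm S) (x : S) : 0 < Function.minimalPeriod σ x :=
  Function.minimalPeriod_pos_of_mem_periodicPts ((Function.Injective.mem_periodicPts σ.injective) x)

lemma pow_mp (σ : Perm S) (x : S) : (σ ^ (Function.minimalPeriod σ x)) x = x := by
  rw [Equiv.Perm.coe_pow]
  exact Function.iterate_minimalPeriod

lemma pow_mod_mp (σ : Perm S) (x : S) (n : ℕ) :
    (σ ^ (n % Function.minimalPeriod σ x)) x = (σ ^ n) x := by
  rw [Equiv.Perm.coe_pow, Equiv.Perm.coe_pow]
  exact Function.iterate_mod_minimalPeriod_eq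

lemma pow_inj (σ : Perm S) (x : S) {i j : ℕ} (hi : i < Function.minimalPeriod σ x)
    (hj : j < Function.minimalPeriod σ x) (h : (σ ^ i) x = (σ ^ j) x) : i = j := by
  rw [Equiv.Perm.coe_pow, Equiv.Perm.coe_pow] at h
  exact Function.iterate_injOn_Iio_minimalPeriod hi hj h

/-- the size of a cycle -/
lemma card_sc [Finite S] (σ : Perm S) (x : S) :
    Nat.card {y // σ.SameCycle x y} = Function.minimalPeriod σ x := by
  have e : Function.Bijective (fun i : Fin (Function.minimalPeriod σ x) =>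
      (⟨(σ ^ (i : ℕ)) x, sc_pow σ x i⟩ : {y // σ.SameCycle x y})) := by
    constructor
    · intro i j h
      exact Fin.ext (pow_inj σ x i.2 j.2 (Subtype.ext_iff.1 h))
    · rintro ⟨y, hy⟩
      obtain ⟨n, hn⟩ := (sc_nat σ).1 hy
      refine ⟨⟨n % Function.minimalPeriod σ x, Nat.mod_lt _ (mp_pos σ x)⟩, ?_⟩
      apply Subtype.ext
      simp only
      rw [pow_mod_mp, hn]
  rw [← Nat.card_eq_of_bijective _ e, Nat.card_eq_fintype_card, Fintype.card_fin]

/-- characterisation of the size of a cycle -/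
lemma mp_eq (σ : Perm S) (x : S) {k : ℕ} (hk : 1 ≤ k) (h : (σ ^ k) x = x)
    (h' : ∀ i, 1 ≤ i → i < k → (σ ^ i) x ≠ x) : Function.minimalPeriod σ x = k := by
  have hp : Function.IsPeriodicPt σ k x := by
    unfold Function.IsPeriodicPt Function.IsFixedPt
    rw [← Equiv.Perm.coe_pow]; exact h
  have h1 : Function.minimalPeriod σ x ≤ k := hp.minimalPeriod_le hk
  rcases Nat.lt_or_ge (Function.minimalPeriod σ x) k with h2 | h2
  · exact absurd (pow_mp σ x) (h' _ (hp.minimalPeriod_pos hk) h2)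
  · omega

/-! ## Copies -/

section copy

variable {T : Type} {σ' : Perm T} {σ : Perm S} {j : T → S}

lemma copy_pow (h : ∀ d, j (σ' d) = σ (j d)) (n : ℕ) (d : T) : j ((σ' ^ n) d) = (σ ^ n) (j d) := by
  induction n generalizing d with
  | zero => simp
  | succ n ih => rw [pow_succ, pow_succ, Perm.mul_apply, Perm.mul_apply, ih, h]

lemma copy_sc [Finite S] [Finite T] (hj : Function.Injective j) (h : ∀ d, j (σ' d) = σ (j d))
    {x y : T} : σ'.SameCycle x y ↔ σ.SameCycle (j x) (j y) := by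
  rw [sc_nat, sc_nat]
  constructor
  · rintro ⟨n, hn⟩
    exact ⟨n, by rw [← copy_pow h, hn]⟩
  · rintro ⟨n, hn⟩
    exact ⟨n, hj (by rw [copy_pow h, hn])⟩

lemma copy_range [Finite S] (h : ∀ d, j (σ' d) = σ (j d)) {x : T} {z : S}
    (hz : σ.SameCycle (j x) z) : z ∈ Set.range j := by
  obtain ⟨n, hn⟩ := (sc_nat σ).1 hz
  exact ⟨(σ' ^ n) x, by rw [copy_pow h, hn]⟩

lemma copy_mp (hj : Function.Injective j) (h : ∀ d, j (σ' d) = σ (j d)) (x : T) :
    Function.minimalPeriod σ' x = Function.minimalPeriod σ (j x) := by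
  apply Nat.dvd_antisymm
  · rw [← Function.isPeriodicPt_iff_minimalPeriod_dvd]
    unfold Function.IsPeriodicPt Function.IsFixedPt
    apply hj
    rw [← Perm.coe_pow, copy_pow h, pow_mp]
  · rw [← Function.isPeriodicPt_iff_minimalPeriod_dvd]
    unfold Function.IsPeriodicPt Function.IsFixedPt
    rw [← Perm.coe_pow, ← copy_pow h, pow_mp]

/-- number of cycles of a copy -/
lemma copy_card [Finite S] [Finite T] (hj : Function.Injective j) (h : ∀ d, j (σ' d) = σ (j d)) :
    Nat.card (Cyc σ') = Nat.card {q : Cyc σ // ∃ x ∈ Set.range j, Quotient.mk _ x = q} := by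
  apply Nat.card_eq_of_bijective (fun q : Cyc σ' => (⟨Quotient.lift (fun x => (Quotient.mk _ (j x) :
    Cyc σ)) (fun a b hab => Quotient.sound ((copy_sc hj h).1 hab)) q, by
      induction q using Quotient.inductionOn with
      | _ x => exact ⟨j x, ⟨x, rfl⟩, rfl⟩⟩ :
        {q : Cyc σ // ∃ x ∈ Set.range j, Quotient.mk _ x = q}))
  constructor
  · intro p q hpq
    induction p using Quotient.inductionOn with
    | _ x =>
      induction q using Quotient.inductionOn with
      | _ y =>
        have := Quotient.exact (Subtype.ext_iff.1 hpq)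
        exact Quotient.sound ((copy_sc hj h).2 this)
  · rintro ⟨q, x, ⟨t, rfl⟩, rfl⟩
    exact ⟨Quotient.mk _ t, rfl⟩

end copy

/-- the cycles are split by an invariant set -/
lemma card_split [Finite S] (σ : Perm S) (K : Set S) (hK : ∀ d, σ d ∈ K ↔ d ∈ K) :
    Nat.card (Cyc σ) = Nat.card {q : Cyc σ // ∃ x ∈ K, Quotient.mk _ x = q} +
      Nat.card {q : Cyc σ // ∃ x ∈ Kᶜ, Quotient.mk _ x = q} := by
  classical
  have hp : ∀ (n : ℕ) d, (σ ^ n) d ∈ K ↔ d ∈ K := by
    intro n
    induction n with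
    | zero => intro d; simp
    | succ n ih => intro d; rw [pow_succ, Perm.mul_apply, ih, hK]
  have e : ∀ q : Cyc σ, (∃ x ∈ Kᶜ, Quotient.mk _ x = q) ↔ ¬ ∃ x ∈ K, Quotient.mk _ x = q := by
    intro q
    constructor
    · rintro ⟨x, hx, rfl⟩ ⟨y, hy, he⟩
      obtain ⟨n, hn⟩ := (sc_nat σ).1 (Quotient.exact he)
      apply hx
      rw [← hn]
      exact (hp n y).2 hy
    · intro h
      induction q using Quotient.inductionOn with
      | _ x => exact ⟨x, fun hx => h ⟨x, hx, rfl⟩, rfl⟩
  have e2 : Nat.card {q : Cyc σ // ∃ x ∈ Kᶜ, Quotient.mk _ x = q} =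
      Nat.card {q : Cyc σ // ¬ ∃ x ∈ K, Quotient.mk _ x = q} :=
    Nat.card_congr (Equiv.subtypeEquivRight e)
  rw [e2]
  have := Fintype.ofFinite (Cyc σ)
  rw [Nat.card_eq_fintype_card, Nat.card_eq_fintype_card, Nat.card_eq_fintype_card]
  have h1 := Fintype.card_subtype_compl (fun q : Cyc σ => ∃ x ∈ K, Quotient.mk _ x = q)
  have h2 := Fintype.card_subtype_le (fun q : Cyc σ => ∃ x ∈ K, Quotient.mk _ x = q)
  omega

/-! ## Splitting a cycle -/

section swp

variable [DecidableEq S]

/-- the orbit of `x` for `swap x y * σ` -/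
lemma swap_pow (σ : Perm S) {x y : S} {k : ℕ} (hk : 1 ≤ k) (hx : ∀ i, 1 ≤ i → i < k → (σ ^ i) x ≠ x)
    (hy : ∀ i, i < k → (σ ^ i) x ≠ y) (hky : (σ ^ k) x = y) :
    (∀ i, i < k → ((swap x y * σ) ^ i) x = (σ ^ i) x) ∧ ((swap x y * σ) ^ k) x = x := by
  have h1 : ∀ i, i < k → ((swap x y * σ) ^ i) x = (σ ^ i) x := by
    intro i
    induction i with
    | zero => intro _; simp
    | succ i ih =>
      intro hi
      rw [pow_succ', Perm.mul_apply, ih (by omega), Perm.mul_apply, ← Perm.mul_apply σ, ← pow_succ']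
      exact swap_apply_of_ne_of_ne (hx _ (by omega) hi) (hy _ hi)
  refine ⟨h1, ?_⟩
  obtain ⟨i, rfl⟩ : ∃ i, k = i + 1 := ⟨k - 1, by omega⟩
  rw [pow_succ', Perm.mul_apply, h1 i (by omega), Perm.mul_apply, ← Perm.mul_apply σ, ← pow_succ',
    hky, swap_apply_right]

lemma swap_mp (σ : Perm S) {x y : S} {k : ℕ} (hk : 1 ≤ k)
    (hx : ∀ i, 1 ≤ i → i < k → (σ ^ i) x ≠ x)
    (hy : ∀ i, i < k → (σ ^ i) x ≠ y) (hky : (σ ^ k) x = y) :
    Function.minimalPeriod (swap x y * σ) x = k := by
  obtain ⟨h1, h2⟩ := swap_pow σ hk hx hy hky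
  refine mp_eq _ _ hk h2 fun i hi hik => ?_
  rw [h1 i hik]
  exact hx i hi hik

lemma swap_nsc [Finite S] (σ : Perm S) {x y : S} {k : ℕ} (hk : 1 ≤ k)
    (hx : ∀ i, 1 ≤ i → i < k → (σ ^ i) x ≠ x)
    (hy : ∀ i, i < k → (σ ^ i) x ≠ y) (hky : (σ ^ k) x = y) :
    ¬ (swap x y * σ).SameCycle x y := by
  intro h
  obtain ⟨n, hn⟩ := (sc_nat _).1 h
  have hm := swap_mp σ hk hx hy hky
  rw [← pow_mod_mp, hm] at hn
  have hlt : n % k < k := Nat.mod_lt _ hk
  rw [(swap_pow σ hk hx hy hky).1 _ hlt] at hn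
  exact hy _ hlt hn

/-- the cycles of `swap x y * σ` are contained in cycles of `σ`, if `x` and `y` are in one cycle -/
lemma swap_sub [Finite S] (σ : Perm S) {x y : S} (h : σ.SameCycle x y) {a b : S}
    (hab : (swap x y * σ).SameCycle a b) : σ.SameCycle a b := by
  obtain ⟨n, hn⟩ := (sc_nat _).1 hab
  rw [← hn]
  clear hn hab
  induction n with
  | zero => exact Perm.SameCycle.refl _ _
  | succ n ih =>
    rw [pow_succ', Perm.mul_apply, Perm.mul_apply]
    have h1 : σ.SameCycle a (σ (((swap x y * σ) ^ n) a)) := ih.trans ⟨1, by simp⟩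
    by_cases e1 : σ (((swap x y * σ) ^ n) a) = x
    · rw [e1, swap_apply_left]; rw [e1] at h1; exact h1.trans h
    · by_cases e2 : σ (((swap x y * σ) ^ n) a) = y
      · rw [e2, swap_apply_right]; rw [e2] at h1; exact h1.trans h.symm
      · rw [swap_apply_of_ne_of_ne e1 e2]; exact h1

/-- the number of cycles goes up -/
lemma swap_card [Finite S] (σ : Perm S) {x y : S} {k : ℕ} (hk : 1 ≤ k)
    (hx : ∀ i, 1 ≤ i → i < k → (σ ^ i) x ≠ x)
    (hy : ∀ i, i < k → (σ ^ i) x ≠ y) (hky : (σ ^ k) x = y) :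
    Nat.card (Cyc σ) + 1 ≤ Nat.card (Cyc (swap x y * σ)) := by
  classical
  have hsc : σ.SameCycle x y := by rw [← hky]; exact sc_pow σ x k
  have := Fintype.ofFinite (Cyc σ)
  have := Fintype.ofFinite (Cyc (swap x y * σ))
  rw [Nat.card_eq_fintype_card, Nat.card_eq_fintype_card]
  let F : Cyc (swap x y * σ) → Cyc σ :=
    Quotient.lift (fun a => (Quotient.mk _ a : Cyc σ))
      (fun a b hab => Quotient.sound (swap_sub σ hsc hab))
  apply Fintype.card_lt_of_surjective_not_injective F
  · intro q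
    induction q using Quotient.inductionOn with
    | _ a => exact ⟨Quotient.mk _ a, rfl⟩
  · intro hF
    have h1 : F (Quotient.mk _ x) = F (Quotient.mk _ y) := Quotient.sound hsc
    exact swap_nsc σ hk hx hy hky (Quotient.exact (hF h1))

/-- the other cycles are not changed -/
lemma swap_other [Finite S] (σ : Perm S) {x y z : S} (hx : ¬ σ.SameCycle z x)
    (hy : ¬ σ.SameCycle z y) (n : ℕ) : ((swap x y * σ) ^ n) z = (σ ^ n) z := by
  induction n with
  | zero => simp
  | succ n ih =>
    rw [pow_succ', Perm.mul_apply, ih, Perm.mul_apply, ← Perm.mul_apply σ, ← pow_succ']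
    refine swap_apply_of_ne_of_ne (fun h => hx ?_) (fun h => hy ?_)
    · rw [← h]; exact sc_pow σ z _
    · rw [← h]; exact sc_pow σ z _

lemma swap_other_mp [Finite S] (σ : Perm S) {x y z : S} (hx : ¬ σ.SameCycle z x)
    (hy : ¬ σ.SameCycle z y) :
    Function.minimalPeriod (swap x y * σ) z = Function.minimalPeriod σ z := by
  refine mp_eq _ _ (mp_pos σ z) ?_ fun i hi hik => ?_
  · rw [swap_other σ hx hy, pow_mp]
  · rw [swap_other σ hx hy]
    intro h
    have := pow_inj σ z hik (mp_pos σ z) (by rw [h]; simp)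
    omega

end swp

/-- sum of the sizes of the cycles, if all but one have size `4` -/
lemma card_four [Finite S] (σ : Perm S) (o : S) (a : ℕ) (ho : Function.minimalPeriod σ o = a)
    (h : ∀ d, ¬ σ.SameCycle o d → Function.minimalPeriod σ d = 4) :
    Nat.card S + 4 = a + 4 * Nat.card (Cyc σ) := by
  classical
  have := Fintype.ofFinite S
  have := Fintype.ofFinite (Cyc σ)
  rw [Nat.card_eq_fintype_card, Nat.card_eq_fintype_card]
  have e : ∀ q : Cyc σ, (Finset.univ.filter fun y : S => (Quotient.mk _ y : Cyc σ) = q).card =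
      if q = Quotient.mk _ o then a else 4 := by
    intro q
    induction q using Quotient.inductionOn with
    | _ x =>
      have e1 : (Finset.univ.filter fun y : S => (Quotient.mk _ y : Cyc σ) = Quotient.mk _ x).card =
          Function.minimalPeriod σ x := by
        rw [← card_sc, Nat.card_eq_fintype_card, Fintype.card_subtype]
        congr 1
        ext y
        simp only [Finset.mem_filter, Finset.mem_univ, true_and]
        exact ⟨fun h => (Quotient.exact h).symm, fun h => Quotient.sound h.symm⟩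
      rw [e1]
      split_ifs with hq
      · have hs : σ.SameCycle x o := Quotient.exact hq
        rw [← ho, ← card_sc, ← card_sc]
        exact Nat.card_congr (Equiv.subtypeEquivRight fun y => ⟨fun h => hs.symm.trans h,
          fun h => hs.trans h⟩)
      · exact h x fun hs => hq (Quotient.sound hs.symm)
  have e2 := Finset.card_eq_sum_card_fiberwise (s := (Finset.univ : Finset S))
    (t := (Finset.univ : Finset (Cyc σ))) (f := fun y : S => (Quotient.mk _ y : Cyc σ))
    (fun _ _ => Finset.mem_univ _)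
  rw [Finset.card_univ] at e2
  rw [e2, Finset.sum_congr rfl (fun q _ => e q)]
  rw [← Finset.add_sum_erase _ _ (Finset.mem_univ (Quotient.mk _ o : Cyc σ)), if_pos rfl]
  rw [Finset.sum_congr rfl (g := fun _ => 4) (fun q hq => if_neg (Finset.ne_of_mem_erase hq)),
    Finset.sum_const, Finset.card_erase_of_mem (Finset.mem_univ _), Finset.card_univ, smul_eq_mul]
  have : 1 ≤ Fintype.card (Cyc σ) := Fintype.card_pos_iff.2 ⟨Quotient.mk _ o⟩
  have hF : Fintype.card (Quotient (Perm.SameCycle.setoid σ)) = Fintype.card (Cyc σ) := rfl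
  rw [hF]
  omega

end H91

end QR
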